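import Pool.Agent.helper42.GB.SpecR

/-!
# Project gb, module RS: start of Roitman's algorithm
-/

set_option autoImplicit false

open Polynomial Matrix

namespace GB

universe u

theorem RS_dvd {R : Type*} [CommRing R] (a : R) (g : R[X])
    (h : Polynomial.mapRingHom (Ideal.Quotient.mk (Ideal.span {a})) g = 0) : C a ∣ g := by
  have h1 : g ∈ RingHom.ker (Polynomial.mapRingHom (Ideal.Quotient.mk (Ideal.span {a}))) := h
  rw [Polynomial.ker_mapRingHom, Ideal.mk_ker, Ideal.map_span, Set.image_singleton,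
    Ideal.mem_span_singleton] at h1
  exact h1

/-- step 1 -/
theorem RS_one (hTA : TA_stmt.{u}) {R : Type u} [CommRing R] [IsNoetherianRing R]
    [IsLocalRing R] {D : ℕ} (hD : 2 ≤ D) {a : R} (ha : a ∈ IsLocalRing.maximalIdeal R)
    (hda : ringKrullDim (R ⧸ Ideal.span {a}) + 1 ≤ D) {ι : Type} [Fintype ι] [DecidableEq ι]
    (hcard : Fintype.card ι = D + 1) (v : ι → R[X]) (hv : Um v) (iD : ι) :
    ∃ w : ι → R[X], EEq v w ∧ C a ∣ w iD - 1 ∧ ∀ i, i ≠ iD → C a ∣ w i := by
  set I : Ideal R := Ideal.span {a} with hI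
  have hIne : I ≠ ⊤ := by
    intro h
    have h1 : I ≤ IsLocalRing.maximalIdeal R := by
      rw [hI, Ideal.span_le]
      intro x hx
      rw [Set.mem_singleton_iff.1 hx]
      exact ha
    rw [h] at h1
    exact (IsLocalRing.maximalIdeal.isMaximal R).ne_top (top_le_iff.1 h1)
  have hnt : Nontrivial (R ⧸ I) := Ideal.Quotient.nontrivial_iff.2 hIne
  have hloc : IsLocalRing (R ⧸ I) :=
    IsLocalRing.of_surjective' (Ideal.Quotient.mk I) Ideal.Quotient.mk_surjective
  set f : R[X] →+* (R ⧸ I)[X] := Polynomial.mapRingHom (Ideal.Quotient.mk I) with hf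
  have hfs : Function.Surjective f := Polynomial.map_surjective _ Ideal.Quotient.mk_surjective
  have hdim : ringKrullDim (R ⧸ I) + 2 ≤ (Fintype.card ι : WithBot ℕ∞) := by
    rw [hcard]
    have h1 := add_le_add_left hda 1
    have e : ringKrullDim (R ⧸ I) + 2 = ringKrullDim (R ⧸ I) + 1 + 1 := by
      rw [add_assoc, one_add_one_eq_two]
    rw [e]
    push_cast
    exact h1
  have h1 : EEq (Pi.single iD 1) (fun i => f (v i)) :=
    hTA (R ⧸ I) ι (by omega) hdim _ (hv.map f) iD
  obtain ⟨w, hw, hw2⟩ := EEq_lift f hfs h1.symm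
  refine ⟨w, hw, ?_, ?_⟩
  · apply RS_dvd
    rw [map_sub, map_one]
    have := hw2 iD
    rw [Pi.single_eq_same] at this
    show f (w iD) - 1 = 0
    rw [this, sub_self]
  · intro i hi
    apply RS_dvd
    have := hw2 i
    rw [Pi.single_eq_of_ne hi] at this
    exact this

/-- step 2 -/
theorem RS_two {R : Type u} [CommRing R] [IsNoetherianRing R]
    [IsLocalRing R] {D : ℕ} (hdim : ringKrullDim R ≤ D) {a : R}
    (ha : a ∈ IsLocalRing.maximalIdeal R) {ι : Type} [Fintype ι]
    (w : ι → R[X]) (hw : Um w) (iD : ι)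
    (hh : ∀ p : Ideal R[X], p.IsPrime → (∀ i, i ≠ iD → w i ∈ p) → C a * w iD ∉ p →
      (D : ℕ∞) ≤ p.height) :
    a ∈ (Ideal.span (Set.range fun i : {i // i ≠ iD} => w i)).leadingCoeff.radical := by
  set J : Ideal R[X] := Ideal.span (Set.range fun i : {i // i ≠ iD} => w i) with hJ
  rw [Ideal.radical_eq_sInf, Ideal.mem_sInf]
  rintro q ⟨hJq, hq⟩
  by_contra haq
  obtain ⟨P, hP, hPq⟩ := LC_exists_minimal J q hJq
  have hPp : P.IsPrime := hP.1.1
  have hmem : ∀ i, i ≠ iD → w i ∈ P := fun i hi => hP.1.2 (Ideal.subset_span ⟨⟨i, hi⟩, rfl⟩)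
  have hCa : C a ∉ P := by
    intro h
    apply haq
    exact hPq ((P.mem_leadingCoeff a).2 ⟨C a, h, leadingCoeff_C a⟩)
  have hwD : w iD ∉ P := by
    intro h
    apply hPp.ne_top
    rw [um_iff_span] at hw
    rw [eq_top_iff, ← hw, Ideal.span_le]
    rintro _ ⟨i, rfl⟩
    by_cases hi : i = iD
    · subst hi; exact h
    · exact hmem i hi
  have hs : C a * w iD ∉ P := fun h => (hPp.mem_or_mem h).elim hCa hwD
  have h1 := hh P hPp hmem hs
  have h2 : P.height ≤ q.height := LC_prime P q hPq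
  have hlt : q < IsLocalRing.maximalIdeal R := by
    refine lt_of_le_of_ne (IsLocalRing.le_maximalIdeal hq.ne_top) ?_
    intro h
    exact haq (h ▸ ha)
  have h3 := Ideal.height_add_one_le_of_lt_of_isPrime hlt
  have h4 : (((IsLocalRing.maximalIdeal R).height : ℕ∞) : WithBot ℕ∞) ≤ ringKrullDim R :=
    Ideal.height_le_ringKrullDim_of_isPrime
  have h5 : (IsLocalRing.maximalIdeal R).height ≤ (D : ℕ∞) :=
    WithBot.coe_le_coe.1 (h4.trans hdim)
  have h6 : (D : ℕ∞) + 1 ≤ (D : ℕ∞) :=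
    (add_le_add_left (h1.trans h2) 1).trans (h3.trans h5)
  have h7 : ((D + 1 : ℕ) : ℕ∞) ≤ (D : ℕ∞) := by push_cast; exact h6
  rw [Nat.cast_le] at h7
  omega

theorem RS (hTA : TA_stmt.{u}) (hGP : GP_stmt.{u}) : RS_stmt.{u} := by
  intro R _ _ _ D hD hdim a ha hnil hda ι _ _ hcard v hv i0 iD hne
  obtain ⟨w1, hvw1, hw1D, hw1⟩ := RS_one hTA hD ha hda hcard v hv iD
  -- general position
  obtain ⟨h, hh⟩ := hGP R[X] {i // i ≠ iD} (fun i => w1 i) (C a * w1 iD)
  have hκ : Fintype.card {i // i ≠ iD} = D := by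
    rw [Fintype.card_subtype_compl, hcard]; simp
  set c : ι → R[X] := fun i => if hi : i = iD then 0 else C a * h ⟨i, hi⟩ with hc
  have hcD : c iD = 0 := by simp [hc]
  set w : ι → R[X] := w1 + w1 iD • c with hwdef
  have hw1w : EEq w1 w := EEq_add_others iD w1 c hcD
  have hwD : w iD = w1 iD := by
    simp [hwdef, hcD]
  have hwi : ∀ (i : ι) (hi : i ≠ iD), w i = w1 i + h ⟨i, hi⟩ * (C a * w1 iD) := by
    intro i hi
    have : c i = C a * h ⟨i, hi⟩ := by simp only [hc]; rw [dif_neg hi]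
    rw [hwdef, Pi.add_apply, Pi.smul_apply, this, smul_eq_mul]
    ring
  have hvw : EEq v w := hvw1.trans hw1w
  have hUw : Um w := hvw.um hv
  have hdvd : ∀ i, i ≠ iD → C a ∣ w i := by
    intro i hi
    rw [hwi i hi]
    exact dvd_add (hw1 i hi) (Dvd.intro (w1 iD * h ⟨i, hi⟩) (by ring))
  have hdvdD : C a ∣ w iD - 1 := by rw [hwD]; exact hw1D
  have hrad := RS_two hdim ha w hUw iD (by
    intro p hp hmem hs
    rw [← hκ]
    refine hh p hp (fun i => ?_) (by rw [← hwD]; exact hs)
    rw [← hwi i.1 i.2]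
    exact hmem i.1 i.2)
  set J : Ideal R[X] := Ideal.span (Set.range fun i : {i // i ≠ iD} => w i) with hJ
  obtain ⟨k, hk⟩ := hrad
  obtain ⟨f, hfJ, hf⟩ := (J.mem_leadingCoeff _).1 hk
  have hne0 : ∀ j : ℕ, a ^ j ≠ 0 := fun j hj => hnil ⟨j, hj⟩
  have hfa : ∀ r ∈ J, C a ∣ r := by
    intro r hr
    rw [← Ideal.mem_span_singleton]
    refine (Ideal.span_le.2 ?_ : J ≤ Ideal.span {C a}) hr
    rintro _ ⟨i, rfl⟩
    exact Ideal.mem_span_singleton.2 (hdvd i.1 i.2)
  -- first modification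
  obtain ⟨d, hd⟩ := Ideal.mem_span_range_iff_exists_fun.1 hfJ
  set N : ℕ := (w iD).natDegree + 1 with hN
  set e : ι → R[X] := fun i => if hi : i = iD then 0 else X ^ N * d ⟨i, hi⟩ with he
  have heD : e iD = 0 := by simp [he]
  have hdot : w ⬝ᵥ e = X ^ N * f := by
    rw [dotProduct, Fintype.sum_eq_add_sum_subtype_ne _ iD, heD, mul_zero, zero_add, ← hd,
      Finset.mul_sum]
    refine Finset.sum_congr rfl fun i _ => ?_
    have : e i = X ^ N * d i := by simp only [he]; rw [dif_neg i.2]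
    rw [this]; ring
  have hE2 := EEq_add_one iD w e heD
  rw [hdot] at hE2
  set g : R[X] := w iD + X ^ N * f with hg
  have hlcf : f.leadingCoeff ≠ 0 := by rw [hf]; exact hne0 k
  have hf0 : f ≠ 0 := fun h0 => hlcf (by rw [h0, leadingCoeff_zero])
  have hnt : Nontrivial R := inferInstance
  have hXf : (X ^ N * f).natDegree = N + f.natDegree := by
    rw [natDegree_X_pow_mul _ hf0]; ring
  have hXlc : (X ^ N * f).leadingCoeff = a ^ k := by
    rw [mul_comm, leadingCoeff_mul_X_pow, hf]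
  have hXne : X ^ N * f ≠ 0 := fun h0 => by
    rw [h0, leadingCoeff_zero] at hXlc; exact hne0 k hXlc.symm
  have hdeg : (w iD).degree < (X ^ N * f).degree := by
    rw [degree_eq_natDegree hXne, hXf]
    refine lt_of_le_of_lt degree_le_natDegree ?_
    exact_mod_cast (by omega : (w iD).natDegree < N + f.natDegree)
  have hglc : g.leadingCoeff = a ^ k := by
    rw [hg, leadingCoeff_add_of_degree_lt hdeg, hXlc]
  have hgdeg : g.natDegree = N + f.natDegree := by
    rw [hg, natDegree_add_eq_right_of_degree_lt hdeg, hXf]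
  have hg0 : g ≠ 0 := fun h0 => by rw [h0, leadingCoeff_zero] at hglc; exact hne0 k hglc.symm
  have hgdvd : C a ∣ g - 1 := by
    have : g - 1 = (w iD - 1) + X ^ N * f := by rw [hg]; ring
    rw [this]
    exact dvd_add hdvdD ((hfa f hfJ).mul_left _)
  -- second modification
  set w2 : ι → R[X] := Function.update w iD g with hw2
  set N' : ℕ := (w i0).natDegree + 1 with hN'
  have hE3 := EEq_update (Ne.symm hne) w2 (C a * X ^ N')
  have e1 : w2 i0 = w i0 := by rw [hw2, Function.update_of_ne hne]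
  have e2 : w2 iD = g := by rw [hw2, Function.update_self]
  rw [e1, e2] at hE3
  set g2 : R[X] := w i0 + g * (C a * X ^ N') with hg2
  have hcoef : (g * (C a * X ^ N')).coeff (g.natDegree + N') = a ^ (k + 1) := by
    rw [← mul_assoc, coeff_mul_X_pow, coeff_mul_C]
    show g.leadingCoeff * a = _
    rw [hglc, pow_succ]
  have hle : (g * (C a * X ^ N')).natDegree ≤ g.natDegree + N' := by
    refine natDegree_mul_le.trans ?_
    have : (C a * X ^ N').natDegree ≤ N' := natDegree_C_mul_X_pow_le a N'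
    omega
  have hcoef2 : g2.coeff (g.natDegree + N') = a ^ (k + 1) := by
    rw [hg2, coeff_add, hcoef, coeff_eq_zero_of_natDegree_lt (by omega), zero_add]
  have hg2deg : g2.natDegree = g.natDegree + N' := by
    apply le_antisymm
    · refine (natDegree_add_le _ _).trans ?_
      exact max_le (by omega) hle
    · apply le_natDegree_of_ne_zero
      rw [hcoef2]
      exact hne0 _
  refine ⟨Function.update w2 i0 g2, g.natDegree + N', (hvw.trans hE2).trans hE3, by omega, ?_, ?_, ?_⟩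
  · rw [Function.update_self, hg2deg]
  · refine ⟨k + 1, ?_⟩
    rw [Function.update_self, leadingCoeff, hg2deg, hcoef2]
  · rw [Function.update_of_ne hne.symm, e2]
    exact hgdvd

end GB
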