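import Pool.Agent.helper70.GB.SpecK

/-!
# Project gb, module TF: cancellation of hyperbolic planes for alternating forms of size four
-/

set_option autoImplicit false

open Matrix

namespace GB

universe u

section

variable {A : Type u} [CommRing A]

theorem TF_Hyp_sq {κ : Type} [Fintype κ] [DecidableEq κ] :
    Hyp κ A * (-Hyp κ A) = 1 := by
  unfold Hyp
  rw [Matrix.mul_neg, Matrix.fromBlocks_multiply]
  simp only [Matrix.zero_mul, Matrix.mul_zero, Matrix.mul_one, zero_add, add_zero,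
    Matrix.one_mul, Matrix.neg_mul, Matrix.mul_neg]
  rw [← Matrix.fromBlocks_one, Matrix.fromBlocks_neg]
  simp

theorem TF_det_dsum {ι κ : Type} [Fintype ι] [DecidableEq ι] [Fintype κ] [DecidableEq κ]
    {χ : Matrix ι ι A} (h : IsUnit χ.det) : IsUnit (dsum χ (Hyp κ A)).det := by
  unfold dsum
  rw [Matrix.det_fromBlocks_zero₂₁]
  exact h.mul (Matrix.isUnit_det_of_right_inverse TF_Hyp_sq)

theorem TF_alt_dsum {ι κ : Type} [Fintype ι] [DecidableEq ι] [Fintype κ] [DecidableEq κ]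
    {χ : Matrix ι ι A} (h : IsAlt χ) : IsAlt (dsum χ (Hyp κ A)) := by
  obtain ⟨h1, h2⟩ := h
  constructor
  · unfold dsum Hyp
    rw [Matrix.fromBlocks_transpose, Matrix.fromBlocks_transpose, Matrix.fromBlocks_neg,
      Matrix.fromBlocks_neg, h1]
    simp
  · rintro (i | (i | i))
    · exact h2 i
    · simp [dsum, Hyp]
    · simp [dsum, Hyp]

/-- one hyperbolic plane -/
theorem TF_step (hES : ES_stmt.{u}) (hTI : TI_stmt.{u}) (hSR : ∀ k, 3 ≤ k → SR A k) {ι : Type}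
    [Fintype ι] [DecidableEq ι] (hι : 4 ≤ Fintype.card ι) {ψ ψ' : Matrix ι ι A}
    (hψ' : IsAlt ψ') (hd : IsUnit ψ'.det)
    {g : Matrix (ι ⊕ (Fin 1 ⊕ Fin 1)) (ι ⊕ (Fin 1 ⊕ Fin 1)) A}
    (hg : g ∈ E (ι ⊕ (Fin 1 ⊕ Fin 1)) A)
    (hgg : gᵀ * dsum ψ' (Hyp (Fin 1) A) * g = dsum ψ (Hyp (Fin 1) A)) :
    ∃ h ∈ E ι A, hᵀ * ψ' * h = ψ := by
  set B' := dsum ψ' (Hyp (Fin 1) A) with hB'
  set B := dsum ψ (Hyp (Fin 1) A) with hB
  set e1 : ι ⊕ (Fin 1 ⊕ Fin 1) → A := Pi.single (Sum.inr (Sum.inl 0)) 1 with he1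
  set f1 : ι ⊕ (Fin 1 ⊕ Fin 1) → A := Pi.single (Sum.inr (Sum.inr 0)) 1 with hf1
  have hxy : (g *ᵥ e1) ⬝ᵥ (B' *ᵥ (g *ᵥ f1)) = 1 := by
    have h1 : (g *ᵥ e1) ⬝ᵥ (B' *ᵥ (g *ᵥ f1)) = e1 ⬝ᵥ ((gᵀ * B' * g) *ᵥ f1) := by
      rw [← Matrix.mulVec_mulVec, ← Matrix.mulVec_mulVec, Matrix.dotProduct_mulVec e1 gᵀ,
        Matrix.vecMul_transpose]
    rw [h1, hgg, he1, hf1, Matrix.mulVec_single_one, single_dotProduct, one_mul]
    simp [hB, dsum, Hyp, Matrix.col]
  obtain ⟨τ, hτ, hτB, hτx, hτy⟩ := hES A ι hι hSR ψ' hψ' hd _ _ hxy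
  set g1 := τ * g with hg1
  have hg1E : g1 ∈ E (ι ⊕ (Fin 1 ⊕ Fin 1)) A := E_mul hτ hg
  have hg1e : g1 *ᵥ e1 = e1 := by rw [hg1, ← Matrix.mulVec_mulVec, hτx]
  have hg1f : g1 *ᵥ f1 = f1 := by rw [hg1, ← Matrix.mulVec_mulVec, hτy]
  have hg1B : g1ᵀ * B' * g1 = B := by
    rw [hg1, Matrix.transpose_mul]
    calc gᵀ * τᵀ * B' * (τ * g) = gᵀ * (τᵀ * B' * τ) * g := by simp only [Matrix.mul_assoc]
      _ = gᵀ * B' * g := by rw [hτB]
      _ = B := hgg
  -- rows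
  have hBe : B *ᵥ e1 = -f1 := by
    rw [he1, hf1, Matrix.mulVec_single_one]
    ext i
    rcases i with i | (i | i)
    · simp [hB, dsum, Matrix.col]
    · simp [hB, dsum, Hyp, Matrix.col]
    · have : i = 0 := Subsingleton.elim _ _
      subst this
      simp [hB, dsum, Hyp, Matrix.col]
  have hB'e : B' *ᵥ e1 = -f1 := by
    rw [he1, hf1, Matrix.mulVec_single_one]
    ext i
    rcases i with i | (i | i)
    · simp [hB', dsum, Matrix.col]
    · simp [hB', dsum, Hyp, Matrix.col]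
    · have : i = 0 := Subsingleton.elim _ _
      subst this
      simp [hB', dsum, Hyp, Matrix.col]
  have hBf : B *ᵥ f1 = e1 := by
    rw [he1, hf1, Matrix.mulVec_single_one]
    ext i
    rcases i with i | (i | i)
    · simp [hB, dsum, Matrix.col]
    · have : i = 0 := Subsingleton.elim _ _
      subst this
      simp [hB, dsum, Hyp, Matrix.col]
    · simp [hB, dsum, Hyp, Matrix.col]
  have hB'f : B' *ᵥ f1 = e1 := by
    rw [he1, hf1, Matrix.mulVec_single_one]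
    ext i
    rcases i with i | (i | i)
    · simp [hB', dsum, Matrix.col]
    · have : i = 0 := Subsingleton.elim _ _
      subst this
      simp [hB', dsum, Hyp, Matrix.col]
    · simp [hB', dsum, Hyp, Matrix.col]
  have hrow1 : g1ᵀ *ᵥ f1 = f1 := by
    have h1 : g1ᵀ *ᵥ (B' *ᵥ (g1 *ᵥ e1)) = B *ᵥ e1 := by
      rw [Matrix.mulVec_mulVec, Matrix.mulVec_mulVec, hg1B]
    rw [hg1e, hB'e, hBe, Matrix.mulVec_neg] at h1
    exact neg_injective h1
  have hrow2 : g1ᵀ *ᵥ e1 = e1 := by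
    have h1 : g1ᵀ *ᵥ (B' *ᵥ (g1 *ᵥ f1)) = B *ᵥ f1 := by
      rw [Matrix.mulVec_mulVec, Matrix.mulVec_mulVec, hg1B]
    rw [hg1f, hB'f, hBf] at h1
    exact h1
  have c1 : ∀ i, g1 i (Sum.inr (Sum.inl 0)) = e1 i := by
    intro i
    have := congrFun hg1e i
    rwa [he1, Matrix.mulVec_single_one] at this
  have c2 : ∀ i, g1 i (Sum.inr (Sum.inr 0)) = f1 i := by
    intro i
    have := congrFun hg1f i
    rwa [hf1, Matrix.mulVec_single_one] at this
  have r1 : ∀ i, g1 (Sum.inr (Sum.inl 0)) i = e1 i := by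
    intro i
    have := congrFun hrow2 i
    rwa [he1, Matrix.mulVec_single_one] at this
  have r2 : ∀ i, g1 (Sum.inr (Sum.inr 0)) i = f1 i := by
    intro i
    have := congrFun hrow1 i
    rwa [hf1, Matrix.mulVec_single_one] at this
  set g2 := g1.toBlocks₁₁ with hg2
  have hg12 : g1 = dsum g2 (1 : Matrix (Fin 1 ⊕ Fin 1) (Fin 1 ⊕ Fin 1) A) := by
    refine Matrix.ext fun i j => ?_
    rcases i with i | (i | i)
    · rcases j with j | (j | j)
      · rfl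
      · obtain rfl : j = 0 := Subsingleton.elim _ _
        rw [c1]; simp [he1, dsum]
      · obtain rfl : j = 0 := Subsingleton.elim _ _
        rw [c2]; simp [hf1, dsum]
    · obtain rfl : i = 0 := Subsingleton.elim _ _
      rw [r1]
      rcases j with j | (j | j)
      · simp [he1, dsum]
      · obtain rfl : j = 0 := Subsingleton.elim _ _
        simp [he1, dsum]
      · simp [he1, dsum]
    · obtain rfl : i = 0 := Subsingleton.elim _ _
      rw [r2]
      rcases j with j | (j | j)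
      · simp [hf1, dsum]
      · simp [hf1, dsum]
      · obtain rfl : j = 0 := Subsingleton.elim _ _
        simp [hf1, dsum]
  refine ⟨g2, ?_, ?_⟩
  · refine hTI A ι (Fin 1 ⊕ Fin 1) (by omega) (fun k hk => hSR k (by omega)) g2 ?_
    rw [← hg12]
    exact hg1E
  · have h1 := congrArg Matrix.toBlocks₁₁ hg1B
    rw [hg12, hB', hB] at h1
    unfold dsum at h1
    rw [Matrix.fromBlocks_transpose, Matrix.fromBlocks_multiply, Matrix.fromBlocks_multiply,
      Matrix.toBlocks_fromBlocks₁₁, Matrix.toBlocks_fromBlocks₁₁] at h1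
    simpa using h1

/-- the equivalence of the index types -/
def TF_e (r : ℕ) : (Fin 4 ⊕ (Fin r ⊕ Fin r)) ⊕ (Fin 1 ⊕ Fin 1) ≃
    Fin 4 ⊕ (Fin (r + 1) ⊕ Fin (r + 1)) :=
  (Equiv.sumAssoc _ _ _).trans (Equiv.sumCongr (Equiv.refl _)
    ((Equiv.sumSumSumComm _ _ _ _).trans (Equiv.sumCongr finSumFinEquiv finSumFinEquiv)))

theorem TF_sub (r : ℕ) (χ : Matrix (Fin 4) (Fin 4) A) :
    (dsum χ (Hyp (Fin (r + 1)) A)).submatrix (TF_e r) (TF_e r) =
      dsum (dsum χ (Hyp (Fin r) A)) (Hyp (Fin 1) A) := by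
  refine Matrix.ext fun i j => ?_
  rcases i with (i | (i | i)) | (i | i) <;> rcases j with (j | (j | j)) | (j | j) <;>
    simp [TF_e, dsum, Hyp, Matrix.one_apply, Fin.ext_iff] <;> omega

end

theorem TF (hES : ES_stmt.{u}) (hTI : TI_stmt.{u}) : TF_stmt.{u} := by
  intro A _ hSR χ χ' hχ hd hχ' hd' r
  induction r with
  | zero =>
    intro g hg hgg
    set e0 : Fin 4 ≃ Fin 4 ⊕ (Fin 0 ⊕ Fin 0) := (Equiv.sumEmpty (Fin 4) (Fin 0 ⊕ Fin 0)).symm
      with he0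
    refine ⟨g.submatrix e0 e0, E_submatrix e0 hg, ?_⟩
    have hs : ∀ φ : Matrix (Fin 4) (Fin 4) A, (dsum φ (Hyp (Fin 0) A)).submatrix e0 e0 = φ := by
      intro φ
      ext i j
      simp [he0, dsum]
    have h1 : (gᵀ * dsum χ' (Hyp (Fin 0) A) * g).submatrix e0 e0 =
        (dsum χ (Hyp (Fin 0) A)).submatrix e0 e0 := by rw [hgg]
    rw [hs, ← Matrix.submatrix_mul_equiv _ _ e0 e0 e0, ← Matrix.submatrix_mul_equiv _ _ e0 e0 e0,
      hs] at h1
    rw [Matrix.transpose_submatrix]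
    exact h1
  | succ r ih =>
    intro g hg hgg
    have h1 : (gᵀ * dsum χ' (Hyp (Fin (r + 1)) A) * g).submatrix (TF_e r) (TF_e r) =
        (dsum χ (Hyp (Fin (r + 1)) A)).submatrix (TF_e r) (TF_e r) := by rw [hgg]
    rw [TF_sub, ← Matrix.submatrix_mul_equiv _ _ (TF_e r) (TF_e r) (TF_e r),
      ← Matrix.submatrix_mul_equiv _ _ (TF_e r) (TF_e r) (TF_e r), TF_sub,
      ← Matrix.transpose_submatrix] at h1
    have hcard : 4 ≤ Fintype.card (Fin 4 ⊕ (Fin r ⊕ Fin r)) := by simp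
    obtain ⟨g2, hg2, hg22⟩ := TF_step hES hTI hSR hcard (TF_alt_dsum hχ') (TF_det_dsum hd')
      (E_submatrix (TF_e r) hg) h1
    exact ih g2 hg2 hg22

end GB
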